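import Pool.Agent.Helper70.Isg.Assembly

/-!
# MP_600500_pr: the subcritical Ising model is a finitary factor of a finite-valued i.i.d. process
with exponential tails

For every `d ≥ 1` and every `0 ≤ β < β_c(d)` the unique Gibbs measure of the nearest neighbour
ferromagnetic Ising model on `ℤ^d` is fv-ffiid with exponential tails.
-/

open MeasureTheory Pool.Agent.Helper70.Isg

namespace Pool.Agent.Results.MP_600500_pr.ExponentialCoding

theorem result : ∀ (d : ℕ) (β : ℝ), 1 ≤ d → 0 ≤ β → (β : EReal) < betaC d →
    ∃ μ : Measure (Cfg d), IsGibbs d β μ ∧ (∀ ν, IsGibbs d β ν → ν = μ) ∧ FvFfiidExp d μ :=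
  assembled

end Pool.Agent.Results.MP_600500_pr.ExponentialCoding
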